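import Pool.Agent.H47Two.Matroid

/-!
# All pairs of bases with few differing elements

From the swap `(B, B') → (B', B)` by exchanges of at most two elements: if `P`, `Q` differ in at
most five elements, then every pair of bases with the same union and the same intersection is
reached from `(P, Q)`.
-/

open Set

namespace Pool.Agent.H7Two

open Pool.Agent.H47Two

/-- One step: if `P'` misses at most two elements of `P`. -/
theorem one_step {α : Type*} (M : Matroid α) {P Q P' Q' : Set α}
    (hP : M.IsBase P) (hP' : M.IsBase P') (hQ' : M.IsBase Q')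
    (hun : P ∪ Q = P' ∪ Q') (hin : P ∩ Q = P' ∩ Q') (h2 : (P \ P').encard ≤ 2) :
    TwoExchange M (P, Q) (P', Q') := by
  have hu : ∀ z, (z ∈ P ∨ z ∈ Q) ↔ (z ∈ P' ∨ z ∈ Q') := fun z => Set.ext_iff.mp hun z
  have hi : ∀ z, (z ∈ P ∧ z ∈ Q) ↔ (z ∈ P' ∧ z ∈ Q') := fun z => Set.ext_iff.mp hin z
  refine ⟨⟨P \ P', Set.sdiff_subset, P' \ P, ?_, hP.encard_sdiff_comm hP', h2, ?_, ?_⟩, hP', hQ'⟩
  · intro z hz
    rcases (hu z).mpr (Or.inl hz.1) with h | h
    · exact absurd h hz.2
    · exact h
  · ext z
    simp only [Set.mem_union, Set.mem_sdiff]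
    tauto
  · ext z
    have h1 := hu z
    have h2 := hi z
    simp only [Set.mem_union, Set.mem_sdiff]
    tauto

theorem all_pairs {α K V : Type*} [Field K] [AddCommGroup V] [Module K V]
    (M : Matroid α) (φ : α → V) (hφ : ∀ X ⊆ M.E, M.Indep X ↔ LinearIndepOn K φ X)
    {P Q P' Q' : Set α} (hP : M.IsBase P) (hQ : M.IsBase Q) (hP' : M.IsBase P')
    (hQ' : M.IsBase Q') (hfin : P.Finite)
    (hun : P ∪ Q = P' ∪ Q') (hin : P ∩ Q = P' ∩ Q') (h5 : (P \ Q).ncard ≤ 5) :
    Relation.ReflTransGen (TwoExchange M) (P, Q) (P', Q') := by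
  have hfinQ : Q.Finite := hP.finite_of_finite hfin hQ
  have hfinP' : P'.Finite := hP.finite_of_finite hfin hP'
  by_cases h2 : (P \ P').ncard ≤ 2
  · apply Relation.ReflTransGen.single
    apply one_step M hP hP' hQ' hun hin
    rw [← (hfin.subset Set.sdiff_subset).cast_ncard_eq]
    exact_mod_cast h2
  · have hu : ∀ z, (z ∈ P ∨ z ∈ Q) ↔ (z ∈ P' ∨ z ∈ Q') := fun z => Set.ext_iff.mp hun z
    have hi : ∀ z, (z ∈ P ∧ z ∈ Q) ↔ (z ∈ P' ∧ z ∈ Q') := fun z => Set.ext_iff.mp hin z
    have hcount : (P \ P').ncard + (Q \ P').ncard = (P \ Q).ncard := by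
      have h1 : (P' \ P).ncard = (P \ P').ncard := hP'.ncard_sdiff_comm hP
      -- `P \ Q` is the disjoint union of `P \ P'` and `(P \ Q) ∩ P'`
      have e1 : (P \ Q).ncard = (P \ P').ncard + ((P \ Q) ∩ P').ncard := by
        rw [← Set.ncard_union_eq ?_ (hfin.subset Set.sdiff_subset)
          (hfin.subset (Set.inter_subset_left.trans Set.sdiff_subset))]
        · congr 1
          ext z
          have h1 := hu z
          have h2 := hi z
          simp only [Set.mem_union, Set.mem_sdiff, Set.mem_inter_iff]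
          tauto
        · rw [Set.disjoint_left]
          intro z hz hz'
          exact hz.2 hz'.2
      -- `Q \ P` is the disjoint union of `Q \ P'` and `P' \ P`
      have e2 : (Q \ P).ncard = (Q \ P').ncard + (P' \ P).ncard := by
        rw [← Set.ncard_union_eq ?_ (hfinQ.subset Set.sdiff_subset)
          (hfinP'.subset Set.sdiff_subset)]
        · congr 1
          ext z
          have h1 := hu z
          have h2 := hi z
          simp only [Set.mem_union, Set.mem_sdiff]
          tauto
        · rw [Set.disjoint_left]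
          intro z hz hz'
          exact hz.2 hz'.1
      have e3 : (Q \ P).ncard = (P \ Q).ncard := hQ.ncard_sdiff_comm hP
      omega
    have h2' : (Q \ P').encard ≤ 2 := by
      rw [← (hfinQ.subset Set.sdiff_subset).cast_ncard_eq]
      have : (Q \ P').ncard ≤ 2 := by omega
      exact_mod_cast this
    obtain ⟨Y, hY, hYc, hpath⟩ := two_swap M φ hφ hP hQ hfin (Set.empty_subset P)
    have hY0 : Y = ∅ := by
      rw [Set.ncard_empty] at hYc
      exact (Set.ncard_eq_zero (hfinQ.subset hY)).mp hYc
    subst hY0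
    have hpath' : Relation.ReflTransGen (TwoExchange M) (P, Q) (Q, P) := by
      have h3 : Relation.ReflTransGen (TwoExchange M) (P, Q)
          (∅ ∪ Q \ ∅, P \ ∅ ∪ ∅) := by
        exact Relation.ReflTransGen.mono
          (r := fun P Q : Set α × Set α => TwoExchange M P Q ∧ (∅ : Set α) ⊆ Q.1)
          (p := TwoExchange M) (fun a b h => h.1) _ _ hpath
      simpa using h3
    refine hpath'.tail ?_
    exact one_step M hQ hP' hQ' (by rw [Set.union_comm, hun]) (by rw [Set.inter_comm, hin]) h2'

end Pool.Agent.H7Two
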