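import Mathlib

/-!
# The closest pair for single exchanges

`N1`, `N2` are matroids on a finite type with full ground sets, `C` a set, `X` a family which is
closed under single exchanges between common bases containing `C`.  If some common basis over `C`
lies in `X` and some does not, then there is a common independent set `G` over `C` which

* either has `r - 1` elements and no extension to a common basis,
* or has `r - 2` elements and is a bad square: there are nonspanning sets `F1`, `F2` of `N1` and
  `G1`, `G2` of `N2` over `G` with `F1 ∩ F2 = cl₁ G`, `G1 ∩ G2 = cl₂ G`, everything outside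
  `F1 ∪ F2` is in `cl₂ G` and everything outside `G1 ∪ G2` is in `cl₁ G`.
-/

open Set

namespace Pool.Agent.H7Two.Square

variable {α : Type*}

/-- A common basis of two matroids. -/
def CB (N1 N2 : Matroid α) (A : Set α) : Prop := N1.IsBase A ∧ N2.IsBase A

/-- Exchange: an element `d` of `A' \ A` replaces some element `a` of `A \ A'`. -/
theorem rev_exchange [Finite α] {M : Matroid α} {A A' : Set α} {d : α} (hA' : M.IsBase A')
    (hA : M.IsBase A) (hd : d ∈ A' \ A) :
    ∃ a ∈ A \ A', M.Indep (insert d (A \ {a})) := by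
  have hI : M.Indep (insert d (A ∩ A')) := by
    refine hA'.indep.subset ?_
    intro z hz
    rcases hz with rfl | hz
    · exact hd.1
    · exact hz.2
  obtain ⟨B, hB, hIB, hBu⟩ := hI.exists_isBase_subset_union_isBase hA
  have hBsub : B ⊆ insert d A := by
    intro z hz
    rcases hBu hz with h | h
    · rcases h with rfl | h
      · exact Or.inl rfl
      · exact Or.inr h.1
    · exact Or.inr h
  have hex : ∃ a ∈ A, a ∉ B := by
    by_contra hcon
    push Not at hcon
    have hAB : A = B := hA.eq_of_subset_isBase hB hcon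
    exact hd.2 (hAB ▸ hIB (Or.inl rfl))
  obtain ⟨a, haA, haB⟩ := hex
  have haA' : a ∉ A' := fun h => haB (hIB (Or.inr ⟨haA, h⟩))
  refine ⟨a, ⟨haA, haA'⟩, ?_⟩
  have hsub : B ⊆ insert d (A \ {a}) := by
    intro z hz
    rcases hBsub hz with rfl | h
    · exact Or.inl rfl
    · exact Or.inr ⟨h, fun h' => haB (by rwa [Set.mem_singleton_iff.mp h'] at hz)⟩
  have hle : (insert d (A \ {a})).ncard ≤ B.ncard := by
    have h1 := Set.ncard_insert_le d (A \ {a})
    have h2 := Set.ncard_sdiff_singleton_add_one haA (Set.toFinite A)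
    have h3 := hA.ncard_eq_ncard_of_isBase hB
    omega
  have heq := Set.eq_of_subset_of_ncard_le hsub hle (Set.toFinite _)
  rw [← heq]
  exact hB.indep

theorem isBase_of_ncard [Finite α] {M : Matroid α} {A I : Set α} (hA : M.IsBase A)
    (hI : M.Indep I) (hc : I.ncard = A.ncard) : M.IsBase I := by
  obtain ⟨B, hB, hIB⟩ := hI.exists_isBase_superset
  have h := hB.ncard_eq_ncard_of_isBase hA
  have := Set.eq_of_subset_of_ncard_le hIB (by omega) (Set.toFinite _)
  rwa [this]

theorem mem_closure_of_two {M : Matroid α} {G : Set α} {a b e : α} (hab : a ≠ b)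
    (hI : M.Indep (insert a (insert b G)))
    (h1 : e ∈ M.closure (insert a G)) (h2 : e ∈ M.closure (insert b G)) (hb : b ∉ G) :
    e ∈ M.closure G := by
  have hu : insert a G ∪ insert b G = insert a (insert b G) := by
    ext z; simp only [Set.mem_union, Set.mem_insert_iff]; tauto
  have hi : insert a G ∩ insert b G = G := by
    ext z
    simp only [Set.mem_inter_iff, Set.mem_insert_iff]
    constructor
    · rintro ⟨rfl | h, rfl | h'⟩
      · exact absurd rfl hab
      · exact h'
      · exact h
      · exact h
    · intro h; exact ⟨Or.inr h, Or.inr h⟩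
  have h3 := Matroid.Indep.closure_inter_eq_inter_closure (M := M) (I := insert a G)
    (J := insert b G) (by rw [hu]; exact hI)
  rw [hi] at h3
  rw [h3]
  exact ⟨h1, h2⟩

/-- One side of the bad square. -/
theorem side {N1 N2 : Matroid α} {G : Set α} {a1 a2 d1 d2 : α} (ha : a1 ≠ a2) (hd : d1 ≠ d2)
    (ha2 : a2 ∉ G) (hd2 : d2 ∉ G)
    (hGE : G ⊆ N1.E) (hd1E : d1 ∈ N1.E) (hd2E : d2 ∈ N1.E)
    (hA2 : N2.Indep (insert a1 (insert a2 G))) (hD2 : N2.Indep (insert d1 (insert d2 G)))
    (hdcl : d1 ∉ N2.closure G ∧ d2 ∉ N2.closure G)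
    (hmix : ∀ a d, (a = a1 ∨ a = a2) → (d = d1 ∨ d = d2) →
      ¬ (d ∉ N1.closure (insert a G) ∧ d ∉ N2.closure (insert a G)))
    (hbr : ∀ e a d, (a = a1 ∨ a = a2) → (d = d1 ∨ d = d2) →
      ¬ (e ∉ N1.closure (insert a G) ∧ e ∉ N2.closure (insert a G) ∧
        e ∉ N1.closure (insert d G) ∧ e ∉ N2.closure (insert d G)))
    {e : α} (he1 : e ∉ N1.closure (insert a1 G)) (he2 : e ∉ N1.closure (insert a2 G)) :
    e ∈ N2.closure G := by
  by_contra heG
  have hGa : ∀ a, (a = a1 ∨ a = a2) → e ∉ N1.closure (insert a G) := by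
    rintro a (rfl | rfl)
    · exact he1
    · exact he2
  have hd' : ∀ d, (d = d1 ∨ d = d2) → e ∉ N1.closure (insert d G) := by
    intro d hdd hed
    have hdE : d ∈ N1.E := by rcases hdd with rfl | rfl <;> assumption
    have hnot : ∀ a, (a = a1 ∨ a = a2) → d ∉ N1.closure (insert a G) := by
      intro a haa hda
      apply hGa a haa
      have hsub : insert d G ⊆ N1.closure (insert a G) := by
        intro z hz
        rcases hz with rfl | hz
        · exact hda
        · exact N1.closure_subset_closure (Set.subset_insert a G)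
            (N1.mem_closure_of_mem hz hGE)
      have h1 := N1.closure_subset_closure hsub
      rw [Matroid.closure_closure] at h1
      exact h1 hed
    have h1 : d ∈ N2.closure (insert a1 G) := by
      by_contra h
      exact hmix a1 d (Or.inl rfl) hdd ⟨hnot a1 (Or.inl rfl), h⟩
    have h2 : d ∈ N2.closure (insert a2 G) := by
      by_contra h
      exact hmix a2 d (Or.inr rfl) hdd ⟨hnot a2 (Or.inr rfl), h⟩
    have h3 := mem_closure_of_two ha hA2 h1 h2 ha2
    rcases hdd with rfl | rfl
    · exact hdcl.1 h3
    · exact hdcl.2 h3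
  have hexa : ∃ a, (a = a1 ∨ a = a2) ∧ e ∉ N2.closure (insert a G) := by
    by_contra hcon
    push Not at hcon
    exact heG (mem_closure_of_two ha hA2 (hcon a1 (Or.inl rfl)) (hcon a2 (Or.inr rfl)) ha2)
  have hexd : ∃ d, (d = d1 ∨ d = d2) ∧ e ∉ N2.closure (insert d G) := by
    by_contra hcon
    push Not at hcon
    exact heG (mem_closure_of_two hd hD2 (hcon d1 (Or.inl rfl)) (hcon d2 (Or.inr rfl)) hd2)
  obtain ⟨a, haa, ha'⟩ := hexa
  obtain ⟨d, hdd, hd''⟩ := hexd
  exact hbr e a d haa hdd ⟨hGa a haa, ha', hd' d hdd, hd''⟩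

/-- The conclusion of the closest pair theorem. -/
def Out (N1 N2 : Matroid α) (r : ℕ) (C : Set α) : Prop :=
  ∃ G : Set α, C ⊆ G ∧ N1.Indep G ∧ N2.Indep G ∧
    ((G.ncard + 1 = r ∧ ∀ e, ¬ (N1.IsBase (insert e G) ∧ N2.IsBase (insert e G))) ∨
     (G.ncard + 2 = r ∧ ∃ F1 F2 G1 G2 : Set α, G ⊆ F1 ∧ G ⊆ F2 ∧ G ⊆ G1 ∧ G ⊆ G2 ∧
        ¬ N1.Spanning F1 ∧ ¬ N1.Spanning F2 ∧ ¬ N2.Spanning G1 ∧ ¬ N2.Spanning G2 ∧
        F1 ∩ F2 = N1.closure G ∧ G1 ∩ G2 = N2.closure G ∧
        (F1 ∪ F2)ᶜ ⊆ N2.closure G ∧ (G1 ∪ G2)ᶜ ⊆ N1.closure G))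

theorem square [Finite α] {N1 N2 : Matroid α} (hE1 : N1.E = univ) (hE2 : N2.E = univ) {r : ℕ}
    {C : Set α} (X : Set α → Prop)
    (hX : ∀ A B : Set α, CB N1 N2 A → CB N1 N2 B → C ⊆ A → C ⊆ B → (A \ B).ncard ≤ 1 →
      X A → X B) :
    ∀ (n : ℕ) (A A' : Set α), (A \ A').ncard = n → A.ncard = r → CB N1 N2 A → CB N1 N2 A' →
      C ⊆ A → C ⊆ A' → X A → ¬ X A' → Out N1 N2 r C := by
  intro n
  induction n using Nat.strong_induction_on with
  | _ n ih =>
    intro A A' hn hr hA hA' hCA hCA' hXA hXA'
    by_cases h3 : 3 ≤ (A \ A').ncard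
    · have hne : (A' \ A).Nonempty := by
        rw [Set.nonempty_iff_ne_empty]
        intro hemp
        have hsub : A' ⊆ A := Set.sdiff_eq_empty.mp hemp
        have heq : A' = A := hA'.1.eq_of_subset_isBase hA.1 hsub
        rw [heq] at h3
        simp at h3
      obtain ⟨d, hd⟩ := hne
      obtain ⟨a, ha, hbase1⟩ := rev_exchange hA'.1 hA.1 hd
      obtain ⟨a', ha', hbase2⟩ := rev_exchange hA'.2 hA.2 hd
      have key : ∃ x y : α, x ∈ A \ A' ∧ y ∈ A \ A' ∧ x ≠ y ∧
          N1.Indep (insert d (A \ {x, y})) ∧ N2.Indep (insert d (A \ {x, y})) := by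
        by_cases haa : a = a'
        · have : ∃ y ∈ A \ A', y ≠ a := by
            by_contra hcon
            push Not at hcon
            have hsub : A \ A' ⊆ {a} := fun y hy => by simpa using hcon y hy
            have := Set.ncard_le_ncard hsub (Set.finite_singleton a)
            rw [Set.ncard_singleton] at this
            omega
          obtain ⟨y, hy, hya⟩ := this
          refine ⟨a, y, ha, hy, hya.symm, hbase1.subset ?_, hbase2.subset ?_⟩
          · intro z hz
            rcases hz with rfl | hz
            · exact Or.inl rfl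
            · exact Or.inr ⟨hz.1, fun h => hz.2 (Or.inl h)⟩
          · intro z hz
            rcases hz with rfl | hz
            · exact Or.inl rfl
            · exact Or.inr ⟨hz.1, fun h => hz.2 (Or.inl (haa ▸ h))⟩
        · refine ⟨a, a', ha, ha', haa, hbase1.subset ?_, hbase2.subset ?_⟩
          · intro z hz
            rcases hz with rfl | hz
            · exact Or.inl rfl
            · exact Or.inr ⟨hz.1, fun h => hz.2 (Or.inl h)⟩
          · intro z hz
            rcases hz with rfl | hz
            · exact Or.inl rfl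
            · exact Or.inr ⟨hz.1, fun h => hz.2 (Or.inr h)⟩
      obtain ⟨x, y, hx, hy, hxy, hI1, hI2⟩ := key
      have hCG : C ⊆ insert d (A \ {x, y}) := by
        intro z hz
        refine Or.inr ⟨hCA hz, ?_⟩
        rintro (rfl | rfl)
        · exact hx.2 (hCA' hz)
        · exact hy.2 (hCA' hz)
      have hcard : (insert d (A \ {x, y})).ncard + 1 = r := by
        have hsub : ({x, y} : Set α) ⊆ A := by
          intro z hz
          rcases hz with rfl | rfl
          · exact hx.1
          · exact hy.1
        have h1 := Set.ncard_sdiff_add_ncard_of_subset hsub (Set.toFinite A)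
        rw [Set.ncard_pair hxy] at h1
        have h2 := Set.ncard_insert_of_notMem (s := A \ {x, y}) (a := d) (fun h => hd.2 h.1)
          (Set.toFinite _)
        omega
      by_cases hst : ∀ e, ¬ (N1.IsBase (insert e (insert d (A \ {x, y}))) ∧
          N2.IsBase (insert e (insert d (A \ {x, y}))))
      · exact ⟨_, hCG, hI1, hI2, Or.inl ⟨hcard, hst⟩⟩
      · push Not at hst
        obtain ⟨e, he1, he2⟩ := hst
        set B := insert e (insert d (A \ {x, y})) with hB
        have hCB : C ⊆ B := fun z hz => Or.inr (hCG hz)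
        have hAB : (A \ B).ncard ≤ 2 := by
          have hsub : A \ B ⊆ {x, y} := by
            intro z hz
            by_contra hzn
            exact hz.2 (Or.inr (Or.inr ⟨hz.1, hzn⟩))
          calc (A \ B).ncard ≤ ({x, y} : Set α).ncard :=
                Set.ncard_le_ncard hsub (Set.toFinite _)
            _ ≤ 2 := by rw [Set.ncard_pair hxy]
        have hlt : (B \ A').ncard < n := by
          have hsub : B \ A' ⊆ insert e ((A \ A') \ {x, y}) := by
            intro z hz
            rcases hz.1 with rfl | rfl | hz1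
            · exact Or.inl rfl
            · exact absurd hd.1 hz.2
            · exact Or.inr ⟨⟨hz1.1, hz.2⟩, hz1.2⟩
          have hsub2 : ({x, y} : Set α) ⊆ A \ A' := by
            intro z hz
            rcases hz with rfl | rfl
            · exact hx
            · exact hy
          have h1 := Set.ncard_sdiff_add_ncard_of_subset hsub2 (Set.toFinite _)
          rw [Set.ncard_pair hxy] at h1
          have h2 := Set.ncard_insert_le e ((A \ A') \ {x, y})
          have h3' := Set.ncard_le_ncard hsub (Set.toFinite _)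
          omega
        by_cases hXB : X B
        · exact ih _ hlt B A' rfl ((he1.ncard_eq_ncard_of_isBase hA.1).trans hr) ⟨he1, he2⟩ hA'
            hCB hCA' hXB hXA'
        · exact ih _ (by omega) A B rfl hr hA ⟨he1, he2⟩ hCA hCB hXA hXB
    · -- distance at most two
      have hge : 2 ≤ (A \ A').ncard := by
        by_contra hlt
        exact hXA' (hX A A' hA hA' hCA hCA' (by omega) hXA)
      have h2 : (A \ A').ncard = 2 := by omega
      have h2' : (A' \ A).ncard = 2 := by rw [hA'.1.ncard_sdiff_comm hA.1]; exact h2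
      obtain ⟨a1, a2, ha, hAe⟩ := Set.ncard_eq_two.mp h2
      obtain ⟨d1, d2, hd, hDe⟩ := Set.ncard_eq_two.mp h2'
      have ha1 : a1 ∈ A \ A' := by rw [hAe]; exact Or.inl rfl
      have ha2 : a2 ∈ A \ A' := by rw [hAe]; exact Or.inr rfl
      have hd1 : d1 ∈ A' \ A := by rw [hDe]; exact Or.inl rfl
      have hd2 : d2 ∈ A' \ A := by rw [hDe]; exact Or.inr rfl
      set G := A ∩ A' with hG
      have hAG : A = insert a1 (insert a2 G) := by
        ext z
        constructor
        · intro hz
          by_cases hz' : z ∈ A'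
          · exact Or.inr (Or.inr ⟨hz, hz'⟩)
          · have : z ∈ A \ A' := ⟨hz, hz'⟩
            rw [hAe] at this
            rcases this with rfl | rfl
            · exact Or.inl rfl
            · exact Or.inr (Or.inl rfl)
        · rintro (rfl | rfl | hz)
          · exact ha1.1
          · exact ha2.1
          · exact hz.1
      have hDG : A' = insert d1 (insert d2 G) := by
        ext z
        constructor
        · intro hz
          by_cases hz' : z ∈ A
          · exact Or.inr (Or.inr ⟨hz', hz⟩)
          · have : z ∈ A' \ A := ⟨hz, hz'⟩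
            rw [hDe] at this
            rcases this with rfl | rfl
            · exact Or.inl rfl
            · exact Or.inr (Or.inl rfl)
        · rintro (rfl | rfl | hz)
          · exact hd1.1
          · exact hd2.1
          · exact hz.2
      have hCG : C ⊆ G := fun z hz => ⟨hCA hz, hCA' hz⟩
      have hG1 : N1.Indep G := hA.1.indep.subset Set.inter_subset_left
      have hG2 : N2.Indep G := hA.2.indep.subset Set.inter_subset_left
      have hcard : G.ncard + 2 = r := by
        have h := Set.ncard_inter_add_ncard_sdiff_eq_ncard A A' (Set.toFinite _)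
        rw [← hG, h2, hr] at h
        exact h
      -- sets of the form `insert e (insert x G)`
      have hmk : ∀ x e : α, x ∉ G → N1.Indep (insert x G) → N2.Indep (insert x G) →
          e ∉ N1.closure (insert x G) → e ∉ N2.closure (insert x G) →
          CB N1 N2 (insert e (insert x G)) := by
        intro x e hxG hx1 hx2 he1 he2
        have hex : e ∉ insert x G := fun h => he1 (N1.mem_closure_of_mem h hx1.subset_ground)
        have hc : (insert e (insert x G)).ncard = A.ncard := by
          rw [Set.ncard_insert_of_notMem hex (Set.toFinite _),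
            Set.ncard_insert_of_notMem hxG (Set.toFinite _)]
          omega
        refine ⟨isBase_of_ncard hA.1 ?_ hc, isBase_of_ncard hA.2 ?_ hc⟩
        · rw [hx1.insert_indep_iff]
          exact Or.inl ⟨by rw [hE1]; trivial, he1⟩
        · rw [hx2.insert_indep_iff]
          exact Or.inl ⟨by rw [hE2]; trivial, he2⟩
      have hdist : ∀ x y : α, ∀ S : Set α, (insert x S \ insert y S).ncard ≤ 1 := by
        intro x y S
        have hsub : insert x S \ insert y S ⊆ {x} := by
          intro z hz
          rcases hz.1 with rfl | h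
          · rfl
          · exact absurd (Or.inr h) hz.2
        have := Set.ncard_le_ncard hsub (Set.finite_singleton x)
        rwa [Set.ncard_singleton] at this
      have hcc : ∀ x y : α, insert x (insert y G) = insert y (insert x G) := fun x y =>
        Set.insert_comm x y G
      have hAi : ∀ a, (a = a1 ∨ a = a2) → a ∉ G ∧ N1.Indep (insert a G) ∧
          N2.Indep (insert a G) ∧ ∃ b, A = insert b (insert a G) := by
        rintro a (rfl | rfl)
        · refine ⟨fun h => ha1.2 h.2, hA.1.indep.subset ?_, hA.2.indep.subset ?_, a2, ?_⟩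
          · rw [hAG]; exact Set.insert_subset_insert (Set.subset_insert _ _)
          · rw [hAG]; exact Set.insert_subset_insert (Set.subset_insert _ _)
          · rw [hAG]; exact hcc _ _
        · refine ⟨fun h => ha2.2 h.2, hA.1.indep.subset ?_, hA.2.indep.subset ?_, a1, hAG⟩
          · rw [hAG]; exact Set.subset_insert _ _
          · rw [hAG]; exact Set.subset_insert _ _
      have hDi : ∀ a, (a = d1 ∨ a = d2) → a ∉ G ∧ N1.Indep (insert a G) ∧
          N2.Indep (insert a G) ∧ ∃ b, A' = insert b (insert a G) := by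
        rintro a (rfl | rfl)
        · refine ⟨fun h => hd1.2 h.1, hA'.1.indep.subset ?_, hA'.2.indep.subset ?_, d2, ?_⟩
          · rw [hDG]; exact Set.insert_subset_insert (Set.subset_insert _ _)
          · rw [hDG]; exact Set.insert_subset_insert (Set.subset_insert _ _)
          · rw [hDG]; exact hcc _ _
        · refine ⟨fun h => hd2.2 h.1, hA'.1.indep.subset ?_, hA'.2.indep.subset ?_, d1, hDG⟩
          · rw [hDG]; exact Set.subset_insert _ _
          · rw [hDG]; exact Set.subset_insert _ _
      -- a common basis over `G + a` is in `X`, one over `G + d` is not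
      have hXa : ∀ a e, (a = a1 ∨ a = a2) → CB N1 N2 (insert e (insert a G)) →
          X (insert e (insert a G)) := by
        intro a e haa hcb
        obtain ⟨_, _, _, b, hb⟩ := hAi a haa
        refine hX A _ hA hcb hCA (fun z hz => Or.inr (Or.inr (hCG hz))) ?_ hXA
        rw [hb]
        exact hdist _ _ _
      have hXd : ∀ d e, (d = d1 ∨ d = d2) → CB N1 N2 (insert e (insert d G)) →
          ¬ X (insert e (insert d G)) := by
        intro d e hdd hcb hXe
        obtain ⟨_, _, _, b, hb⟩ := hDi d hdd
        apply hXA'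
        refine hX _ A' hcb hA' (fun z hz => Or.inr (Or.inr (hCG hz))) hCA' ?_ hXe
        rw [hb]
        exact hdist _ _ _
      have hmix : ∀ a d, (a = a1 ∨ a = a2) → (d = d1 ∨ d = d2) →
          ¬ (d ∉ N1.closure (insert a G) ∧ d ∉ N2.closure (insert a G)) := by
        rintro a d haa hdd ⟨h1, h2⟩
        obtain ⟨haG, hi1, hi2, _⟩ := hAi a haa
        have hcb := hmk a d haG hi1 hi2 h1 h2
        have hx := hXa a d haa hcb
        rw [hcc d a] at hcb hx
        exact hXd d a hdd hcb hx
      have hbr : ∀ e a d, (a = a1 ∨ a = a2) → (d = d1 ∨ d = d2) →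
          ¬ (e ∉ N1.closure (insert a G) ∧ e ∉ N2.closure (insert a G) ∧
            e ∉ N1.closure (insert d G) ∧ e ∉ N2.closure (insert d G)) := by
        rintro e a d haa hdd ⟨h1, h2, h3, h4⟩
        obtain ⟨haG, hi1, hi2, _⟩ := hAi a haa
        obtain ⟨hdG, hj1, hj2, _⟩ := hDi d hdd
        have hcb1 := hmk a e haG hi1 hi2 h1 h2
        have hcb2 := hmk d e hdG hj1 hj2 h3 h4
        have hx := hXa a e haa hcb1
        apply hXd d e hdd hcb2
        refine hX _ _ hcb1 hcb2 (fun z hz => Or.inr (Or.inr (hCG hz)))
          (fun z hz => Or.inr (Or.inr (hCG hz))) ?_ hx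
        rw [hcc e a, hcc e d]
        exact hdist _ _ _
      have hcl : ∀ (M : Matroid α) (x : α), M.E = univ → M.Indep (insert x G) → x ∉ G →
          x ∉ M.closure G := by
        intro M x _ hx hxG hmem
        have hGi : M.Indep G := hx.subset (Set.subset_insert _ _)
        rw [hGi.insert_indep_iff] at hx
        rcases hx with h | h
        · exact h.2 hmem
        · exact hxG h
      have hns : ∀ (M : Matroid α) (x : α), M.IsBase A → M.Indep (insert x G) → x ∉ G →
          ¬ M.Spanning (M.closure (insert x G)) := by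
        intro M x hMA hx hxG hsp
        rw [Matroid.closure_spanning_iff (hS := hx.subset_ground)] at hsp
        have hb := hx.isBase_of_spanning hsp
        have h1 := hb.ncard_eq_ncard_of_isBase hMA
        rw [Set.ncard_insert_of_notMem hxG (Set.toFinite _)] at h1
        omega
      obtain ⟨ha1G, ha11, ha12, _⟩ := hAi a1 (Or.inl rfl)
      obtain ⟨ha2G, ha21, ha22, _⟩ := hAi a2 (Or.inr rfl)
      obtain ⟨hd1G, hd11, hd12, _⟩ := hDi d1 (Or.inl rfl)
      obtain ⟨hd2G, hd21, hd22, _⟩ := hDi d2 (Or.inr rfl)
      have hA1i : N1.Indep (insert a1 (insert a2 G)) := hAG ▸ hA.1.indep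
      have hA2i : N2.Indep (insert a1 (insert a2 G)) := hAG ▸ hA.2.indep
      have hD1i : N1.Indep (insert d1 (insert d2 G)) := hDG ▸ hA'.1.indep
      have hD2i : N2.Indep (insert d1 (insert d2 G)) := hDG ▸ hA'.2.indep
      have hin : ∀ M : Matroid α, M.Indep (insert a1 (insert a2 G)) →
          M.closure (insert a1 G) ∩ M.closure (insert a2 G) = M.closure G := by
        intro M hM
        apply Set.Subset.antisymm
        · rintro z ⟨hz1, hz2⟩
          exact mem_closure_of_two ha hM hz1 hz2 ha2G
        · intro z hz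
          exact ⟨M.closure_subset_closure (Set.subset_insert _ _) hz,
            M.closure_subset_closure (Set.subset_insert _ _) hz⟩
      have hGs : ∀ (M : Matroid α) (x : α), M.E = univ → G ⊆ M.closure (insert x G) := by
        intro M x hM z hz
        exact M.mem_closure_of_mem (Or.inr hz) (by rw [hM]; exact Set.subset_univ _)
      refine ⟨G, hCG, hG1, hG2, Or.inr ⟨hcard, N1.closure (insert a1 G), N1.closure (insert a2 G),
        N2.closure (insert a1 G), N2.closure (insert a2 G), hGs _ _ hE1, hGs _ _ hE1,
        hGs _ _ hE2, hGs _ _ hE2, hns _ _ hA.1 ha11 ha1G, hns _ _ hA.1 ha21 ha2G,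
        hns _ _ hA.2 ha12 ha1G, hns _ _ hA.2 ha22 ha2G, hin _ hA1i, hin _ hA2i, ?_, ?_⟩⟩
      · intro e he
        simp only [Set.mem_compl_iff, Set.mem_union, not_or] at he
        exact side ha hd ha2G hd2G hG1.subset_ground (by rw [hE1]; trivial) (by rw [hE1]; trivial)
          hA2i hD2i ⟨hcl _ _ hE2 hd12 hd1G, hcl _ _ hE2 hd22 hd2G⟩ hmix hbr he.1 he.2
      · intro e he
        simp only [Set.mem_compl_iff, Set.mem_union, not_or] at he
        refine side (N1 := N2) (N2 := N1) ha hd ha2G hd2G hG2.subset_ground
          (by rw [hE2]; trivial) (by rw [hE2]; trivial)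
          hA1i hD1i ⟨hcl _ _ hE1 hd11 hd1G, hcl _ _ hE1 hd21 hd2G⟩ ?_ ?_ he.1 he.2
        · rintro a d haa hdd ⟨h1, h2⟩
          exact hmix a d haa hdd ⟨h2, h1⟩
        · rintro e a d haa hdd ⟨h1, h2, h3, h4⟩
          exact hbr e a d haa hdd ⟨h2, h1, h4, h3⟩

end Pool.Agent.H7Two.Square
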