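import Pool.Agent.H7Two.Square

/-!
# Few elements: the exchange graph of common bases is connected

`N1`, `N2` are matroids with the same finite ground type, whose common bases have `r` elements and
such that every element of every common basis can be exchanged.  If the ground type has `2 * r`
elements and `r ≤ 5`, then any two common bases are joined by single exchanges.
-/

open Set

namespace Pool.Agent.H7Two.TE

open Pool.Agent.H7Two.Square

variable {α : Type*}

/-- The elements outside `S` and `S'` which can be exchanged against an element of `S \ S'`. -/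
def Z (N1 N2 : Matroid α) (S S' : Set α) : Set α :=
  {e | e ∉ S ∧ e ∉ S' ∧ ∃ a ∈ S \ S', CB N1 N2 (insert e (S \ {a}))}

theorem two_le [Finite α] {N1 N2 : Matroid α} (hE1 : N1.E = univ) (hE2 : N2.E = univ)
    (hsym : ∀ A, CB N1 N2 A → ∀ a ∈ A, ∃ e, e ∉ A ∧ CB N1 N2 (insert e (A \ {a})))
    (R : Set α → Prop)
    (hR : ∀ A B, CB N1 N2 A → CB N1 N2 B → (A \ B).ncard ≤ 1 → (R A ↔ R B))
    {S S' : Set α} (hS : CB N1 N2 S) (hS' : CB N1 N2 S') (hRS : R S) (hRS' : ¬ R S')
    (hmin : ∀ T T', CB N1 N2 T → CB N1 N2 T' → R T → ¬ R T' →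
      (S \ S').ncard ≤ (T \ T').ncard) :
    2 ≤ (Z N1 N2 S S').ncard := by
  -- the distance is at least two
  have hn2 : 2 ≤ (S \ S').ncard := by
    by_contra hlt
    exact hRS' ((hR S S' hS hS' (by omega)).mp hRS)
  -- exchanged elements lie outside `S'`
  have hout : ∀ a ∈ S \ S', ∀ e, e ∉ S → CB N1 N2 (insert e (S \ {a})) → e ∉ S' ∧
      R (insert e (S \ {a})) := by
    intro a ha e heS hcb
    have hadj : (S \ insert e (S \ {a})).ncard ≤ 1 := by
      have hsub : S \ insert e (S \ {a}) ⊆ {a} := by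
        intro z hz
        by_contra hza
        exact hz.2 (Or.inr ⟨hz.1, hza⟩)
      have := Set.ncard_le_ncard hsub (Set.finite_singleton a)
      rwa [Set.ncard_singleton] at this
    have hRT : R (insert e (S \ {a})) := (hR _ _ hS hcb hadj).mp hRS
    refine ⟨fun heS' => ?_, hRT⟩
    have h1 := hmin _ S' hcb hS' hRT hRS'
    have hsub : insert e (S \ {a}) \ S' ⊆ (S \ S') \ {a} := by
      intro z hz
      rcases hz.1 with rfl | h
      · exact absurd heS' hz.2
      · exact ⟨⟨h.1, hz.2⟩, h.2⟩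
    have h2 := Set.ncard_le_ncard hsub (Set.toFinite _)
    have h3 := Set.ncard_sdiff_singleton_add_one ha (Set.toFinite _)
    omega
  by_contra hlt
  -- a single exchanged element
  have hsub1 : ∀ a ∈ S \ S', ∃ e ∈ Z N1 N2 S S', CB N1 N2 (insert e (S \ {a})) := by
    intro a ha
    obtain ⟨e, heS, hcb⟩ := hsym S hS a ha.1
    exact ⟨e, ⟨heS, (hout a ha e heS hcb).1, a, ha, hcb⟩, hcb⟩
  have hne : (S \ S').Nonempty := by
    rw [← Set.ncard_pos (Set.toFinite _)]; omega
  obtain ⟨a0, ha0⟩ := hne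
  obtain ⟨e0, he0, _⟩ := hsub1 a0 ha0
  have hZ1 : ∀ e ∈ Z N1 N2 S S', e = e0 := by
    intro e he
    have hle : (Z N1 N2 S S').ncard ≤ 1 := by omega
    exact (Set.ncard_le_one (Set.toFinite _)).mp hle e he e0 he0
  have hall : ∀ a ∈ S \ S', CB N1 N2 (insert e0 (S \ {a})) := by
    intro a ha
    obtain ⟨e, he, hcb⟩ := hsub1 a ha
    rwa [hZ1 e he] at hcb
  have heS : e0 ∉ S := he0.1
  have heS' : e0 ∉ S' := he0.2.1
  -- an element of `S' \ S`
  have hne' : (S' \ S).Nonempty := by
    rw [← Set.ncard_pos (Set.toFinite _), hS'.1.ncard_sdiff_comm hS.1]; omega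
  obtain ⟨d, hd⟩ := hne'
  obtain ⟨a, ha, hia⟩ := rev_exchange hS'.1 hS.1 hd
  obtain ⟨a', ha', hia'⟩ := rev_exchange hS'.2 hS.2 hd
  have hcard : ∀ x ∈ S, ∀ y, y ∉ S → (insert y (S \ {x})).ncard = S.ncard := by
    intro x hx y hy
    rw [Set.ncard_insert_of_notMem (fun h => hy h.1) (Set.toFinite _)]
    exact Set.ncard_sdiff_singleton_add_one hx (Set.toFinite _)
  -- not both `S - x + d` independent
  have hnb : ∀ x ∈ S \ S', ¬ (N1.Indep (insert d (S \ {x})) ∧ N2.Indep (insert d (S \ {x}))) := by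
    rintro x hx ⟨h1, h2⟩
    have hcb : CB N1 N2 (insert d (S \ {x})) :=
      ⟨isBase_of_ncard hS.1 h1 (hcard x hx.1 d hd.2), isBase_of_ncard hS.2 h2 (hcard x hx.1 d hd.2)⟩
    exact (hout x hx d hd.2 hcb).1 hd.1
  have hindx : ∀ (N : Matroid α) (x : α), N.IsBase S → N.Indep (S \ {x}) := fun N x h =>
    h.indep.subset Set.sdiff_subset
  have hcl1 : d ∈ N1.closure (S \ {a'}) := by
    by_contra h
    apply hnb a' ha'
    refine ⟨?_, hia'⟩
    rw [(hindx N1 a' hS.1).insert_indep_iff]
    exact Or.inl ⟨by rw [hE1]; trivial, h⟩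
  have hcl2 : d ∈ N2.closure (S \ {a}) := by
    by_contra h
    apply hnb a ha
    refine ⟨hia, ?_⟩
    rw [(hindx N2 a hS.2).insert_indep_iff]
    exact Or.inl ⟨by rw [hE2]; trivial, h⟩
  have haa : a ≠ a' := by
    rintro rfl
    exact hnb a ha ⟨hia, hia'⟩
  set G := insert d (S \ {a, a'}) with hG
  have hG1 : N1.Indep G := hia.subset (by
    intro z hz
    rcases hz with rfl | hz
    · exact Or.inl rfl
    · exact Or.inr ⟨hz.1, fun h => hz.2 (Or.inl h)⟩)
  have hG2 : N2.Indep G := hia'.subset (by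
    intro z hz
    rcases hz with rfl | hz
    · exact Or.inl rfl
    · exact Or.inr ⟨hz.1, fun h => hz.2 (Or.inr h)⟩)
  have hle1 : N1.closure G ⊆ N1.closure (S \ {a'}) := by
    have hsub : G ⊆ N1.closure (S \ {a'}) := by
      intro z hz
      rcases hz with rfl | hz
      · exact hcl1
      · exact N1.mem_closure_of_mem ⟨hz.1, fun h => hz.2 (Or.inr h)⟩
          (hindx N1 a' hS.1).subset_ground
    have := N1.closure_subset_closure hsub
    rwa [Matroid.closure_closure] at this
  have hle2 : N2.closure G ⊆ N2.closure (S \ {a}) := by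
    have hsub : G ⊆ N2.closure (S \ {a}) := by
      intro z hz
      rcases hz with rfl | hz
      · exact hcl2
      · exact N2.mem_closure_of_mem ⟨hz.1, fun h => hz.2 (Or.inl h)⟩
          (hindx N2 a hS.2).subset_ground
    have := N2.closure_subset_closure hsub
    rwa [Matroid.closure_closure] at this
  have hecl : ∀ (N : Matroid α) (x : α), N.IsBase S → N.Indep (insert e0 (S \ {x})) →
      e0 ∉ N.closure (S \ {x}) := by
    intro N x hN hx hmem
    rw [(hindx N x hN).insert_indep_iff] at hx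
    rcases hx with h | h
    · exact h.2 hmem
    · exact heS h.1
  have he1 : e0 ∉ N1.closure G := fun h => hecl N1 a' hS.1 (hall a' ha').1.indep (hle1 h)
  have he2 : e0 ∉ N2.closure G := fun h => hecl N2 a hS.2 (hall a ha).2.indep (hle2 h)
  have hGi1 : N1.Indep (insert e0 G) := by
    rw [hG1.insert_indep_iff]
    exact Or.inl ⟨by rw [hE1]; trivial, he1⟩
  have hGi2 : N2.Indep (insert e0 G) := by
    rw [hG2.insert_indep_iff]
    exact Or.inl ⟨by rw [hE2]; trivial, he2⟩
  have hed : e0 ≠ d := fun h => heS' (h ▸ hd.1)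
  have heG : e0 ∉ G := by
    rintro (h | h)
    · exact hed h
    · exact heS h.1
  have hsubaa : ({a, a'} : Set α) ⊆ S := by
    intro z hz
    rcases hz with rfl | rfl
    · exact ha.1
    · exact ha'.1
  have hcB : (insert e0 G).ncard = S.ncard := by
    rw [Set.ncard_insert_of_notMem heG (Set.toFinite _), hG,
      Set.ncard_insert_of_notMem (fun h => hd.2 h.1) (Set.toFinite _)]
    have h1 := Set.ncard_sdiff_add_ncard_of_subset hsubaa (Set.toFinite S)
    rw [Set.ncard_pair haa] at h1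
    omega
  have hB : CB N1 N2 (insert e0 G) := ⟨isBase_of_ncard hS.1 hGi1 hcB, isBase_of_ncard hS.2 hGi2 hcB⟩
  have hT := hall a' ha'
  have hRT := (hout a' ha' e0 heS hT).2
  have hadj : (insert e0 (S \ {a'}) \ insert e0 G).ncard ≤ 1 := by
    have hsub : insert e0 (S \ {a'}) \ insert e0 G ⊆ {a} := by
      intro z hz
      by_contra hza
      apply hz.2
      rcases hz.1 with rfl | h
      · exact Or.inl rfl
      · refine Or.inr (Or.inr ⟨h.1, ?_⟩)
        rintro (h' | h')
        · exact hza h'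
        · exact h.2 h'
    have := Set.ncard_le_ncard hsub (Set.finite_singleton a)
    rwa [Set.ncard_singleton] at this
  have hRB : R (insert e0 G) := (hR _ _ hT hB hadj).mp hRT
  have h1 := hmin _ S' hB hS' hRB hRS'
  have hsub : insert e0 G \ S' ⊆ insert e0 ((S \ S') \ {a, a'}) := by
    intro z hz
    rcases hz.1 with rfl | rfl | h
    · exact Or.inl rfl
    · exact absurd hd.1 hz.2
    · exact Or.inr ⟨⟨h.1, hz.2⟩, h.2⟩
  have hsub2 : ({a, a'} : Set α) ⊆ S \ S' := by
    intro z hz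
    rcases hz with rfl | rfl
    · exact ha
    · exact ha'
  have h2 := Set.ncard_le_ncard hsub (Set.toFinite _)
  have h3 := Set.ncard_insert_le e0 ((S \ S') \ {a, a'})
  have h4 := Set.ncard_sdiff_add_ncard_of_subset hsub2 (Set.toFinite _)
  rw [Set.ncard_pair haa] at h4
  omega

/-- Single exchange between common bases. -/
def Step (N1 N2 : Matroid α) (A B : Set α) : Prop :=
  CB N1 N2 A ∧ CB N1 N2 B ∧ (A \ B).ncard ≤ 1

theorem connected [Finite α] {N1 N2 : Matroid α} (hE1 : N1.E = univ) (hE2 : N2.E = univ)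
    (hsym : ∀ A, CB N1 N2 A → ∀ a ∈ A, ∃ e, e ∉ A ∧ CB N1 N2 (insert e (A \ {a})))
    {A A' : Set α} (hA : CB N1 N2 A) (hA' : CB N1 N2 A') (hr : A.ncard ≤ 5)
    (hcard : Nat.card α = 2 * A.ncard) :
    Relation.ReflTransGen (Step N1 N2) A A' := by
  classical
  by_contra hnot
  set R : Set α → Prop := fun S => Relation.ReflTransGen (Step N1 N2) A S with hRdef
  have hsymm : ∀ S T, CB N1 N2 S → CB N1 N2 T → (S \ T).ncard = (T \ S).ncard := fun S T h1 h2 =>
    h1.1.ncard_sdiff_comm h2.1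
  have hR : ∀ S T, CB N1 N2 S → CB N1 N2 T → (S \ T).ncard ≤ 1 → (R S ↔ R T) := by
    intro S T h1 h2 h3
    constructor
    · intro h
      exact Relation.ReflTransGen.tail h ⟨h1, h2, h3⟩
    · intro h
      exact Relation.ReflTransGen.tail h ⟨h2, h1, by rw [hsymm T S h2 h1]; exact h3⟩
  -- minimal distance
  have hex : ∃ n : ℕ, ∃ S S' : Set α, CB N1 N2 S ∧ CB N1 N2 S' ∧ R S ∧ ¬ R S' ∧
      (S \ S').ncard = n :=
    ⟨_, A, A', hA, hA', Relation.ReflTransGen.refl, hnot, rfl⟩
  obtain ⟨S, S', hS, hS', hRS, hRS', hn⟩ := Nat.find_spec hex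
  have hmin : ∀ T T', CB N1 N2 T → CB N1 N2 T' → R T → ¬ R T' →
      (S \ S').ncard ≤ (T \ T').ncard := by
    intro T T' h1 h2 h3 h4
    rw [hn]
    exact Nat.find_min' hex ⟨T, T', h1, h2, h3, h4, rfl⟩
  have k1 := two_le hE1 hE2 hsym R hR hS hS' hRS hRS' hmin
  have k2 := two_le hE1 hE2 hsym (fun S => ¬ R S)
    (fun S T h1 h2 h3 => not_congr (hR S T h1 h2 h3)) hS' hS hRS' (fun h => h hRS) (by
      intro T T' h1 h2 h3 h4
      rw [hsymm S' S hS' hS, hsymm T T' h1 h2]
      exact hmin T' T h2 h1 (not_not.mp h4) h3)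
  have hn2 : 2 ≤ (S \ S').ncard := by
    by_contra hlt
    exact hRS' ((hR S S' hS hS' (by omega)).mp hRS)
  -- the two sets are disjoint
  have hdis : Disjoint (Z N1 N2 S S') (Z N1 N2 S' S) := by
    rw [Set.disjoint_left]
    rintro e ⟨heS, heS', a, ha, hcb⟩ ⟨_, _, d, hd, hcb'⟩
    have hadj : (S \ insert e (S \ {a})).ncard ≤ 1 := by
      have hsub : S \ insert e (S \ {a}) ⊆ {a} := by
        intro z hz
        by_contra hza
        exact hz.2 (Or.inr ⟨hz.1, hza⟩)
      have := Set.ncard_le_ncard hsub (Set.finite_singleton a)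
      rwa [Set.ncard_singleton] at this
    have hadj' : (S' \ insert e (S' \ {d})).ncard ≤ 1 := by
      have hsub : S' \ insert e (S' \ {d}) ⊆ {d} := by
        intro z hz
        by_contra hza
        exact hz.2 (Or.inr ⟨hz.1, hza⟩)
      have := Set.ncard_le_ncard hsub (Set.finite_singleton d)
      rwa [Set.ncard_singleton] at this
    have hRT := (hR _ _ hS hcb hadj).mp hRS
    have hRT' : ¬ R (insert e (S' \ {d})) := fun h => hRS' ((hR _ _ hS' hcb' hadj').mpr h)
    have h1 := hmin _ _ hcb hcb' hRT hRT'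
    have hsub : insert e (S \ {a}) \ insert e (S' \ {d}) ⊆ (S \ S') \ {a} := by
      intro z hz
      have hze : z ≠ e := fun h => hz.2 (Or.inl h)
      rcases hz.1 with h | h
      · exact absurd h hze
      · refine ⟨⟨h.1, fun hz' => ?_⟩, h.2⟩
        apply hz.2
        refine Or.inr ⟨hz', fun hzd => ?_⟩
        rw [Set.mem_singleton_iff] at hzd
        exact hd.2 (hzd ▸ h.1)
    have h2 := Set.ncard_le_ncard hsub (Set.toFinite _)
    have h3 := Set.ncard_sdiff_singleton_add_one ha (Set.toFinite _)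
    omega
  -- count
  have hSr : S.ncard = A.ncard := hS.1.ncard_eq_ncard_of_isBase hA.1
  have c1 : (Z N1 N2 S S' ∪ Z N1 N2 S' S).ncard =
      (Z N1 N2 S S').ncard + (Z N1 N2 S' S).ncard :=
    Set.ncard_union_eq hdis (Set.toFinite _) (Set.toFinite _)
  have c2 : (S' ∪ (S \ S')).ncard = S'.ncard + (S \ S').ncard :=
    Set.ncard_union_eq Set.disjoint_sdiff_right (Set.toFinite _) (Set.toFinite _)
  have hdis2 : Disjoint (S' ∪ (S \ S')) (Z N1 N2 S S' ∪ Z N1 N2 S' S) := by
    rw [Set.disjoint_left]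
    rintro z hz (hz' | hz')
    · rcases hz with h | h
      · exact hz'.2.1 h
      · exact hz'.1 h.1
    · rcases hz with h | h
      · exact hz'.1 h
      · exact hz'.2.1 h.1
  have c3 := Set.ncard_union_eq hdis2 (Set.toFinite _) (Set.toFinite _)
  have c4 : ((S' ∪ (S \ S')) ∪ (Z N1 N2 S S' ∪ Z N1 N2 S' S)).ncard ≤ Nat.card α := by
    rw [← Set.ncard_univ]
    exact Set.ncard_le_ncard (Set.subset_univ _) (Set.toFinite _)
  have hS'r : S'.ncard = A.ncard := hS'.1.ncard_eq_ncard_of_isBase hA.1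
  omega

end Pool.Agent.H7Two.TE
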